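import Mathlib

/-!
# Project EQ: equivalent realisations of non-generic isostatic frameworks
(frozen S08761 of MP_52d521_co)
-/

set_option autoImplicit false

namespace Pool.Agent.W555.EQ

/-- The polynomial map given by `f`. -/
noncomputable def pm {I : Type} (f : I → MvPolynomial I ℂ) (y : I → ℂ) : I → ℂ :=
  fun i => MvPolynomial.eval y (f i)

/-- The Jacobian determinant. -/
noncomputable def jac {I : Type} [Fintype I] [DecidableEq I] (f : I → MvPolynomial I ℂ) :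
    MvPolynomial I ℂ :=
  Matrix.det (Matrix.of fun i j => MvPolynomial.pderiv j (f i))

/-- EQ-DEP -/
def StDep : Prop :=
  ∀ (I : Type) [Fintype I] (f : I → MvPolynomial I ℂ) (J : MvPolynomial I ℂ), J ≠ 0 →
    ∃ R : MvPolynomial I ℂ, R ≠ 0 ∧ J ∣ MvPolynomial.aeval f R

/-- EQ-CONN: the complement of a hypersurface in a ball is connected. -/
def StConn : Prop :=
  ∀ (I : Type) [Fintype I] (R : MvPolynomial I ℂ), R ≠ 0 → ∀ (c : I → ℂ) (d : ℝ),
    IsPreconnected {x : I → ℂ | x ∈ Metric.ball c d ∧ MvPolynomial.eval x R ≠ 0} ∧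
      Metric.ball c d ⊆ closure {x : I → ℂ | x ∈ Metric.ball c d ∧ MvPolynomial.eval x R ≠ 0}

/-- EQ-OPENA: a polynomial map with nonzero Jacobian is open at isolated points of its fibres. -/
def StOpenA : Prop :=
  ∀ (I : Type) [Fintype I] [DecidableEq I] (f : I → MvPolynomial I ℂ), jac f ≠ 0 →
    ∀ (y0 : I → ℂ) (ρ : ℝ), 0 < ρ → (∀ y, dist y y0 < ρ → pm f y = pm f y0 → y = y0) →
      ∀ ε : ℝ, 0 < ε → ∃ δ : ℝ, 0 < δ ∧ ∀ z : I → ℂ, dist z (pm f y0) < δ →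
        ∃ y, dist y y0 < ε ∧ pm f y = z

/-- EQ-OPENB: the same without the hypothesis on the Jacobian. -/
def StOpenB : Prop :=
  ∀ (I : Type) [Fintype I] [DecidableEq I] (f : I → MvPolynomial I ℂ),
    ∀ (y0 : I → ℂ) (ρ : ℝ), 0 < ρ → (∀ y, dist y y0 < ρ → pm f y = pm f y0 → y = y0) →
      ∀ ε : ℝ, 0 < ε → ∃ δ : ℝ, 0 < δ ∧ ∀ z : I → ℂ, dist z (pm f y0) < δ →
        ∃ y, dist y y0 < ε ∧ pm f y = z

/-- Squared distances of a realisation. -/
def dd {V : Type} (r : V → Fin 2 → ℂ) (u v : V) : ℂ := ∑ k : Fin 2, (r u k - r v k) ^ 2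

theorem dd_symm {V : Type} (r : V → Fin 2 → ℂ) (u v : V) : dd r u v = dd r v u := by
  unfold dd
  refine Finset.sum_congr rfl fun k _ => ?_
  ring

/-- Squared length of an (unordered) edge. -/
def ds {V : Type} (r : V → Fin 2 → ℂ) : Sym2 V → ℂ :=
  Sym2.lift ⟨fun u v => dd r u v, fun u v => dd_symm r u v⟩

/-- The congruence classes with edge lengths `l` (a class is given by all its distances). -/
def Fib {V : Type} (G : SimpleGraph V) (l : Sym2 V → ℂ) : Set (V → V → ℂ) :=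
  {D | ∃ r : V → Fin 2 → ℂ, (∀ u v, G.Adj u v → dd r u v = l s(u, v)) ∧ D = fun u v => dd r u v}

/-- `r` is pinned at `u`, `v`. -/
def Pinned {V : Type} (u v : V) (r : V → Fin 2 → ℂ) : Prop :=
  (∀ k, r u k = 0) ∧ r v 1 = 0

/-- EQ-PIN -/
def StPin : Prop :=
  ∀ (V : Type) (u v : V),
    (∀ r : V → Fin 2 → ℂ, dd r u v ≠ 0 → ∃ r', Pinned u v r' ∧ ∀ x y, dd r' x y = dd r x y) ∧
    ∀ [Finite V] (r : V → Fin 2 → ℂ), dd r u v ≠ 0 →
      {r' : V → Fin 2 → ℂ | Pinned u v r' ∧ ∀ x y, dd r' x y = dd r x y}.Finite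

/-- EQ-LOC: the number of classes cannot drop for nearby lengths. -/
def StLoc : Prop :=
  ∀ (V : Type) [Fintype V] (G : SimpleGraph V), G.edgeSet.ncard + 3 = 2 * Fintype.card V →
    ∀ q : V → Fin 2 → ℂ, (∃ u v, G.Adj u v ∧ dd q u v ≠ 0) → (Fib G (ds q)).Finite →
      ∃ δ : ℝ, 0 < δ ∧ ∀ l : Sym2 V → ℂ, (∀ e ∈ G.edgeSet, ‖l e - ds q e‖ < δ) →
        (Fib G (ds q)).encard ≤ (Fib G l).encard

/-- EQ-AUTA: generic tuples are dense. -/
def StAutA : Prop :=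
  ∀ (E : Type) [Finite E] (c : E → ℂ) (δ : ℝ), 0 < δ →
    ∃ x : E → ℂ, AlgebraicIndependent ℚ x ∧ ∀ e, ‖x e - c e‖ < δ

/-- EQ-AUTB: any two generic tuples are related by an automorphism. -/
def StAutB : Prop :=
  ∀ (E : Type) [Finite E] (x x' : E → ℂ), AlgebraicIndependent ℚ x → AlgebraicIndependent ℚ x' →
    ∃ σ : ℂ ≃+* ℂ, ∀ e, σ (x e) = x' e

/-- EQ-IND: the edge lengths of a generic realisation are generic. -/
def StInd : Prop :=
  ∀ (V : Type) [Fintype V] (G : SimpleGraph V) (c : Sym2 V → ℂ) (δ : ℝ), 0 < δ →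
    (∀ l : Sym2 V → ℂ, (∀ e ∈ G.edgeSet, ‖l e - c e‖ < δ) → (Fib G l).Nonempty) →
    ∀ p : V → Fin 2 → ℂ, AlgebraicIndependent ℚ (fun x : V × Fin 2 => p x.1 x.2) →
      AlgebraicIndependent ℚ (fun e : G.edgeSet => ds p e.1)

/-- EQ-END: the frozen statement. -/
def StEnd : Prop :=
    ∀ (V : Type) [Fintype V] (G : SimpleGraph V),
      (G.edgeSet.ncard + 3 = 2 * Fintype.card V ∧
        ∀ S : Finset V, 2 ≤ S.card →
          {e ∈ G.edgeSet | ∀ v ∈ e, v ∈ S}.ncard + 3 ≤ 2 * S.card) →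
      ∀ p q : V → Fin 2 → ℂ,
        AlgebraicIndependent ℚ (fun x : V × Fin 2 => p x.1 x.2) →
        {K : Set (V → Fin 2 → ℂ) | ∃ r : V → Fin 2 → ℂ,
            (∀ u v, G.Adj u v →
              ∑ k : Fin 2, (r u k - r v k) ^ 2 = ∑ k : Fin 2, (q u k - q v k) ^ 2) ∧
            K = {s | ∀ u v,
              ∑ k : Fin 2, (s u k - s v k) ^ 2 = ∑ k : Fin 2, (r u k - r v k) ^ 2}}.Finite →
        {K : Set (V → Fin 2 → ℂ) | ∃ r : V → Fin 2 → ℂ,
            (∀ u v, G.Adj u v →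
              ∑ k : Fin 2, (r u k - r v k) ^ 2 = ∑ k : Fin 2, (q u k - q v k) ^ 2) ∧
            K = {s | ∀ u v,
              ∑ k : Fin 2, (s u k - s v k) ^ 2 = ∑ k : Fin 2, (r u k - r v k) ^ 2}}.encard ≤
        {K : Set (V → Fin 2 → ℂ) | ∃ r : V → Fin 2 → ℂ,
            (∀ u v, G.Adj u v →
              ∑ k : Fin 2, (r u k - r v k) ^ 2 = ∑ k : Fin 2, (p u k - p v k) ^ 2) ∧
            K = {s | ∀ u v,
              ∑ k : Fin 2, (s u k - s v k) ^ 2 = ∑ k : Fin 2, (r u k - r v k) ^ 2}}.encard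

end Pool.Agent.W555.EQ
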